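import Mathlib

/-!
# Arhangel'skii's question on the Lindelof property under embeddings of function spaces

For a space `X`, the function space `C_p(X)` is the subtype `{f : X → ℝ // Continuous f}` with the
subspace topology of the product topology on `X → ℝ` (the topology of pointwise convergence).

We prove: if `X` is Lindelof, `Y` is completely regular and `C_p(Y)` is homeomorphic to a subspace
of `C_p(X)`, then `Y` is Lindelof.
-/

open Set Topology Filter

namespace Pool.Agent.Results.MP_7f09f8_gt.LindelofFunctionSpaces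

universe u v

variable {X : Type u} {Y : Type v} [TopologicalSpace X] [TopologicalSpace Y]

/-- Basic neighbourhoods in the topology of pointwise convergence. -/
theorem exists_finset_of_mem_nhds {Z : Type*} [TopologicalSpace Z]
    (f : {f : Z → ℝ // Continuous f}) (S : Set {f : Z → ℝ // Continuous f}) (hS : S ∈ 𝓝 f) :
    ∃ F : Finset Z, ∃ η : ℝ, 0 < η ∧
      ∀ h : {f : Z → ℝ // Continuous f}, (∀ z ∈ F, |h.1 z - f.1 z| < η) → h ∈ S := by
  classical
  rw [nhds_subtype_eq_comap, Filter.mem_comap] at hS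
  obtain ⟨T, hT, hTS⟩ := hS
  rw [nhds_pi, Filter.mem_pi] at hT
  obtain ⟨I, hI, t, ht, hIT⟩ := hT
  have h1 : ∀ i : Z, ∃ ε : ℝ, 0 < ε ∧ Metric.ball (f.1 i) ε ⊆ t i := by
    intro i
    exact Metric.mem_nhds_iff.1 (ht i)
  choose ε hε hball using h1
  have h2 : ∃ η : ℝ, 0 < η ∧ ∀ i ∈ hI.toFinset, η ≤ ε i := by
    induction hI.toFinset using Finset.induction_on with
    | empty => exact ⟨1, one_pos, by simp⟩
    | insert a s _ ih =>
      obtain ⟨η, hη, h⟩ := ih
      refine ⟨min η (ε a), lt_min hη (hε a), ?_⟩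
      intro i hi
      rcases Finset.mem_insert.1 hi with rfl | hi
      · exact min_le_right _ _
      · exact (min_le_left _ _).trans (h i hi)
  obtain ⟨η, hη, h⟩ := h2
  refine ⟨hI.toFinset, η, hη, ?_⟩
  intro g hg
  apply hTS
  apply hIT
  intro i hi
  apply hball i
  have hi' : i ∈ hI.toFinset := hI.mem_toFinset.2 hi
  rw [Metric.mem_ball, Real.dist_eq]
  exact (hg i hi').trans_le (h i hi')

/-- Functions which are `1` on a given finite set and vanish on a set of the filter. -/
theorem exists_bump [CompletelyRegularSpace Y] (f : Filter Y)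
    (hf : ∀ y : Y, ∃ V : Set Y, IsOpen V ∧ y ∈ V ∧ Vᶜ ∈ f) (K : Finset Y) :
    ∃ g : Y → ℝ, Continuous g ∧ (∀ z, 0 ≤ g z) ∧ (∀ z, g z ≤ 1) ∧ (∀ z ∈ K, g z = 1) ∧
      {z | g z = 0} ∈ f := by
  classical
  induction K using Finset.induction_on with
  | empty =>
    refine ⟨fun _ => 0, continuous_const, fun _ => le_rfl, fun _ => zero_le_one, by simp, ?_⟩
    simp
  | insert a s _ ih =>
    obtain ⟨g, hg, hg0, hg1, hgs, hgf⟩ := ih
    obtain ⟨V, hVo, haV, hVf⟩ := hf a
    obtain ⟨r, hr, hra, hrV⟩ := CompletelyRegularSpace.completely_regular a Vᶜ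
      hVo.isClosed_compl (by simpa using haV)
    refine ⟨fun z => max (g z) (1 - (r z : ℝ)), ?_, ?_, ?_, ?_, ?_⟩
    · exact hg.max (continuous_const.sub (continuous_subtype_val.comp hr))
    · intro z
      exact (hg0 z).trans (le_max_left _ _)
    · intro z
      exact max_le (hg1 z) (by linarith [(r z).2.1])
    · intro z hz
      rcases Finset.mem_insert.1 hz with rfl | hz
      · have : (1 : ℝ) - (r z : ℝ) = 1 := by rw [hra]; simp
        simp only [this]
        exact max_eq_right (hg1 z)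
      · simp only [hgs z hz]
        exact max_eq_left (by linarith [(r z).2.1])
    · filter_upwards [hgf, hVf] with z hz1 hz2
      have h3 : (r z : ℝ) = 1 := by
        have := hrV hz2
        rw [this]; simp
      have hz1' : g z = 0 := hz1
      simp [h3, hz1']

/-- The main step: for every `φ` in `C_p(Y)` there is one function `q`, vanishing on a set of the
filter, such that on each point of `X` the value `e φ` is approximated by values `e h`, where `h`
vanishes wherever `q` or `φ` vanish. -/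
theorem exists_step [LindelofSpace X] [CompletelyRegularSpace Y] (f : Filter Y)
    [CountableInterFilter f]
    (hf : ∀ y : Y, ∃ V : Set Y, IsOpen V ∧ y ∈ V ∧ Vᶜ ∈ f)
    (e : {f : Y → ℝ // Continuous f} → {f : X → ℝ // Continuous f}) (he : Continuous e)
    (φ : {f : Y → ℝ // Continuous f}) :
    ∃ q : Y → ℝ, Continuous q ∧ (∀ z, 0 ≤ q z) ∧ {z | q z = 0} ∈ f ∧
      ∀ x : X, ∀ ε : ℝ, 0 < ε → ∃ h : {f : Y → ℝ // Continuous f},
        (∀ z, q z = 0 → h.1 z = 0) ∧ (∀ z, φ.1 z = 0 → h.1 z = 0) ∧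
          |(e h).1 x - (e φ).1 x| < ε := by
  classical
  let G : Set (Y → ℝ) := {g | Continuous g ∧ (∀ z, 0 ≤ g z) ∧ (∀ z, g z ≤ 1) ∧ {z | g z = 0} ∈ f}
  let m : G → {f : Y → ℝ // Continuous f} := fun g => ⟨fun z => g.1 z * φ.1 z, g.2.1.mul φ.2⟩
  let V : ℕ → G → Set X := fun k g => {x | |(e (m g)).1 x - (e φ).1 x| < 1 / ((k : ℝ) + 1)}
  have hVo : ∀ k g, IsOpen (V k g) := by
    intro k g
    exact isOpen_lt (((e (m g)).2.sub (e φ).2).abs) continuous_const
  have hVc : ∀ k, (univ : Set X) ⊆ ⋃ g, V k g := by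
    intro k x _
    have hk : (0 : ℝ) < 1 / ((k : ℝ) + 1) := by positivity
    have hcont : Continuous fun ψ : {f : Y → ℝ // Continuous f} => (e ψ).1 x :=
      (continuous_apply x).comp (continuous_subtype_val.comp he)
    have hnh : {ψ : {f : Y → ℝ // Continuous f} | |(e ψ).1 x - (e φ).1 x| < 1 / ((k : ℝ) + 1)} ∈
        𝓝 φ := by
      apply IsOpen.mem_nhds
      · exact isOpen_lt ((hcont.sub continuous_const).abs) continuous_const
      · simpa using hk
    obtain ⟨F, η, hη, hF⟩ := exists_finset_of_mem_nhds φ _ hnh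
    obtain ⟨g, hg, hg0, hg1, hgF, hgf⟩ := exists_bump f hf F
    refine mem_iUnion.2 ⟨⟨g, hg, hg0, hg1, hgf⟩, ?_⟩
    apply hF
    intro z hz
    simp only [m, hgF z hz, one_mul, sub_self, abs_zero]
    exact hη
  have hsub : ∀ k, ∃ r : Set G, r.Countable ∧ (univ : Set X) ⊆ ⋃ g ∈ r, V k g := fun k =>
    isLindelof_univ.elim_countable_subcover (V k) (hVo k) (hVc k)
  choose r hrc hrV using hsub
  let g0 : G := ⟨fun _ => 0, continuous_const, fun _ => le_rfl, fun _ => zero_le_one, by simp⟩
  have hTc : (insert g0 (⋃ k, r k)).Countable := (countable_iUnion hrc).insert g0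
  obtain ⟨s, hs⟩ := hTc.exists_eq_range (insert_nonempty _ _)
  have hbound : ∀ (j : ℕ) (z : Y), ‖(1 / 2 : ℝ) ^ j * (s j).1 z‖ ≤ (1 / 2 : ℝ) ^ j := by
    intro j z
    rw [Real.norm_eq_abs, abs_of_nonneg (mul_nonneg (by positivity) ((s j).2.2.1 z))]
    exact mul_le_of_le_one_right (by positivity) ((s j).2.2.2.1 z)
  have hsum : ∀ z, Summable fun j : ℕ => (1 / 2 : ℝ) ^ j * (s j).1 z := fun z =>
    Summable.of_norm_bounded summable_geometric_two (fun j => hbound j z)
  refine ⟨fun z => ∑' j : ℕ, (1 / 2 : ℝ) ^ j * (s j).1 z, ?_, ?_, ?_, ?_⟩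
  · exact continuous_tsum (fun j => continuous_const.mul (s j).2.1) summable_geometric_two hbound
  · intro z
    exact tsum_nonneg fun j => mul_nonneg (by positivity) ((s j).2.2.1 z)
  · have h1 : ∀ j : ℕ, {z | (s j).1 z = 0} ∈ f := fun j => (s j).2.2.2.2
    have h2 := countable_iInter_mem.2 h1
    filter_upwards [h2] with z hz
    have hz' : ∀ j, (s j).1 z = 0 := fun j => mem_iInter.1 hz j
    simp [hz']
  · intro x ε hε
    obtain ⟨k, hk⟩ := exists_nat_one_div_lt hε
    have hx := hrV k (mem_univ x)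
    obtain ⟨g, hgr, hgx⟩ := mem_iUnion₂.1 hx
    have hg : g ∈ insert g0 (⋃ k, r k) := mem_insert_of_mem _ (mem_iUnion.2 ⟨k, hgr⟩)
    rw [hs] at hg
    obtain ⟨j, rfl⟩ := hg
    refine ⟨m (s j), ?_, ?_, ?_⟩
    · intro z hz
      have h0 : (1 / 2 : ℝ) ^ j * (s j).1 z ≤ 0 := by
        rw [← hz]
        exact (hsum z).le_tsum j fun i _ => mul_nonneg (by positivity) ((s i).2.2.1 z)
      have h1 : (s j).1 z ≤ 0 := by
        by_contra hcon
        push Not at hcon
        have : 0 < (1 / 2 : ℝ) ^ j * (s j).1 z := by positivity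
        linarith
      have h2 : (s j).1 z = 0 := le_antisymm h1 ((s j).2.2.1 z)
      simp [m, h2]
    · intro z hz
      simp [m, hz]
    · exact lt_trans hgx hk

/-- **Theorem.** Let `X` be a Lindelof space and `Y` a completely regular space. If `C_p(Y)` is
homeomorphic to a subspace of `C_p(X)`, then `Y` is Lindelof. -/
theorem result {X : Type u} {Y : Type v} [TopologicalSpace X] [TopologicalSpace Y]
    [LindelofSpace X] [CompletelyRegularSpace Y]
    (e : {f : Y → ℝ // Continuous f} → {f : X → ℝ // Continuous f}) (he : IsEmbedding e) :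
    LindelofSpace Y := by
  classical
  refine ⟨?_⟩
  intro f hfne hfc _
  by_contra hcon
  push Not at hcon
  have hf : ∀ y : Y, ∃ V : Set Y, IsOpen V ∧ y ∈ V ∧ Vᶜ ∈ f := by
    intro y
    have h1 : ¬ ClusterPt y f := hcon y (mem_univ y)
    rw [ClusterPt, not_neBot, ← disjoint_iff, (nhds_basis_opens y).disjoint_iff_left] at h1
    obtain ⟨V, ⟨hyV, hVo⟩, hVf⟩ := h1
    exact ⟨V, hVo, hyV, hVf⟩
  have hstep := exists_step (X := X) f hf e he.continuous
  choose Q hQc hQ0 hQf hQ using hstep
  -- the sequence of functions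
  let P : Type v := {p : Y → ℝ // Continuous p}
  let cut : P → P := fun p => ⟨fun z => max 0 (1 - p.1 z), continuous_const.max (continuous_const.sub p.2)⟩
  let next : P → P := fun p => ⟨fun z => 2 * p.1 z + Q (cut p) z,
    (continuous_const.mul p.2).add (hQc (cut p))⟩
  let p : ℕ → P := fun n => Nat.rec ⟨fun _ => 0, continuous_const⟩ (fun _ q => next q) n
  have hp0 : ∀ z, (p 0).1 z = 0 := fun z => rfl
  have hps : ∀ n z, (p (n + 1)).1 z = 2 * (p n).1 z + Q (cut (p n)) z := fun n z => rfl
  have hpnn : ∀ n z, 0 ≤ (p n).1 z := by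
    intro n
    induction n with
    | zero => intro z; rw [hp0]
    | succ n ih => intro z; rw [hps]; linarith [ih z, hQ0 (cut (p n)) z]
  have hpf : ∀ n, {z | (p n).1 z = 0} ∈ f := by
    intro n
    induction n with
    | zero => simp [hp0]
    | succ n ih =>
      filter_upwards [ih, hQf (cut (p n))] with z h1 h2
      have h1' : (p n).1 z = 0 := h1
      have h2' : Q (cut (p n)) z = 0 := h2
      show (p (n + 1)).1 z = 0
      rw [hps, h1', h2']; ring
  have hgrow : ∀ m k z, 2 ^ k * (p m).1 z ≤ (p (m + k)).1 z := by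
    intro m k z
    induction k with
    | zero => simp
    | succ k ih =>
      have : (p (m + (k + 1))).1 z = 2 * (p (m + k)).1 z + Q (cut (p (m + k))) z := hps (m + k) z
      rw [this, pow_succ]
      linarith [hQ0 (cut (p (m + k))) z]
  have hev : ∀ z, (∀ n, (p n).1 z = 0) ∨ ∀ᶠ n in atTop, 1 ≤ (p n).1 z := by
    intro z
    by_cases hz : ∀ n, (p n).1 z = 0
    · exact Or.inl hz
    · right
      push Not at hz
      obtain ⟨m, hm⟩ := hz
      have hm' : 0 < (p m).1 z := lt_of_le_of_ne (hpnn m z) (Ne.symm hm)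
      obtain ⟨k0, hk0⟩ := pow_unbounded_of_one_lt (1 / (p m).1 z) (one_lt_two (α := ℝ))
      filter_upwards [eventually_ge_atTop (m + k0)] with n hn
      obtain ⟨k, rfl⟩ := Nat.exists_eq_add_of_le hn
      have h1 : (1 : ℝ) ≤ 2 ^ k0 * (p m).1 z := by
        rw [div_lt_iff₀ hm'] at hk0
        exact hk0.le
      have h2 : (2 : ℝ) ^ k0 ≤ 2 ^ (k0 + k) := pow_le_pow_right₀ one_le_two (Nat.le_add_right _ _)
      have h3 := hgrow m (k0 + k) z
      rw [← add_assoc] at h3
      calc (1 : ℝ) ≤ 2 ^ k0 * (p m).1 z := h1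
        _ ≤ 2 ^ (k0 + k) * (p m).1 z := by gcongr
        _ ≤ _ := h3
  -- a point outside of all supports
  have hinter : (⋂ n, {z | (p n).1 z = 0}) ∈ f := countable_iInter_mem.2 hpf
  obtain ⟨y, hy⟩ := hfne.nonempty_of_mem hinter
  have hy' : ∀ n, (p n).1 y = 0 := fun n => mem_iInter.1 hy n
  -- use of the embedding
  let zero : {f : Y → ℝ // Continuous f} := ⟨fun _ => 0, continuous_const⟩
  have hopen : {ψ : {f : Y → ℝ // Continuous f} | |ψ.1 y| < 1} ∈ 𝓝 zero := by
    apply IsOpen.mem_nhds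
    · exact isOpen_lt (((continuous_apply y).comp continuous_subtype_val).abs) continuous_const
    · simp [zero]
  rw [he.isInducing.nhds_eq_comap, Filter.mem_comap] at hopen
  obtain ⟨S, hS, hSsub⟩ := hopen
  obtain ⟨A, ε, hε, hA⟩ := exists_finset_of_mem_nhds (e zero) S hS
  -- continuity of `e` at zero
  have hcont0 : ∀ x : X, ∃ F : Finset Y, ∀ h : {f : Y → ℝ // Continuous f},
      (∀ z ∈ F, h.1 z = 0) → |(e h).1 x - (e zero).1 x| < ε / 2 := by
    intro x
    have hcont : Continuous fun ψ : {f : Y → ℝ // Continuous f} => (e ψ).1 x :=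
      (continuous_apply x).comp (continuous_subtype_val.comp he.continuous)
    have hnh : {ψ : {f : Y → ℝ // Continuous f} | |(e ψ).1 x - (e zero).1 x| < ε / 2} ∈
        𝓝 zero := by
      apply IsOpen.mem_nhds
      · exact isOpen_lt ((hcont.sub continuous_const).abs) continuous_const
      · simp only [mem_ofPred_eq, sub_self, abs_zero]; linarith
    obtain ⟨F, η, hη, hF⟩ := exists_finset_of_mem_nhds zero _ hnh
    refine ⟨F, fun h hh => hF h fun z hz => ?_⟩
    rw [hh z hz]
    simpa [zero] using hη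
  choose F hF using hcont0
  let FF : Finset Y := A.biUnion F
  have hN : ∀ᶠ n in atTop, ∀ z ∈ FF, (∀ k, (p k).1 z = 0) ∨ 1 ≤ (p n).1 z := by
    rw [Filter.eventually_all_finset]
    intro z _
    rcases hev z with h | h
    · exact Eventually.of_forall fun n => Or.inl h
    · filter_upwards [h] with n hn using Or.inr hn
  obtain ⟨N, hN⟩ := hN.exists
  have hclose : ∀ x ∈ A, |(e (cut (p N))).1 x - (e zero).1 x| < ε := by
    intro x hx
    obtain ⟨h, hq, hcut, hhx⟩ := hQ (cut (p N)) x (ε / 2) (by linarith)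
    have hz : ∀ z ∈ F x, h.1 z = 0 := by
      intro z hz
      rcases hN z (Finset.mem_biUnion.2 ⟨x, hx, hz⟩) with h0 | h1
      · apply hq
        have h2 := hps N z
        rw [h0 N, h0 (N + 1)] at h2
        linarith
      · apply hcut
        show max 0 (1 - (p N).1 z) = 0
        exact max_eq_left (by linarith)
    have h3 := hF x h hz
    calc |(e (cut (p N))).1 x - (e zero).1 x|
        = |-((e h).1 x - (e (cut (p N))).1 x) + ((e h).1 x - (e zero).1 x)| := by
          congr 1; ring
      _ ≤ |-((e h).1 x - (e (cut (p N))).1 x)| + |(e h).1 x - (e zero).1 x| := abs_add_le _ _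
      _ < ε := by rw [abs_neg]; linarith
  have hmem : cut (p N) ∈ e ⁻¹' S := hA _ hclose
  have hlt : |(cut (p N)).1 y| < 1 := hSsub hmem
  have heq : (cut (p N)).1 y = 1 := by
    show max 0 (1 - (p N).1 y) = 1
    rw [hy' N]; norm_num
  rw [heq] at hlt
  norm_num at hlt

end Pool.Agent.Results.MP_7f09f8_gt.LindelofFunctionSpaces
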